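import Pool.Agent.Run7.h404.FL.Iface

/-!
# Piece CS of project FL (helper669): compactly supported primitives
-/

set_option autoImplicit false

namespace Run7.h669.FL

open Set Topology Filter Run7.h404.FL

theorem cont_coord (i : Fin 5) : Continuous fun x : E5 => x i :=
  (EuclideanSpace.proj i : E5 →L[ℝ] ℝ).continuous

theorem norm_lt_of_box {s : ℝ} (hs : 0 < s) {x : E5} (h : ∀ i, |x i| < s) : ‖x‖ < 3 * s := by
  have h1 : ‖x‖ ^ 2 = ∑ i, ‖x i‖ ^ 2 := EuclideanSpace.norm_sq_eq x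
  have h2 : ∀ i, ‖x i‖ ^ 2 ≤ s ^ 2 := by
    intro i
    have := h i
    rw [Real.norm_eq_abs]
    exact pow_le_pow_left₀ (abs_nonneg _) this.le 2
  have h3 : ‖x‖ ^ 2 ≤ 5 * s ^ 2 := by
    rw [h1]
    calc ∑ i, ‖x i‖ ^ 2 ≤ ∑ _i : Fin 5, s ^ 2 := Finset.sum_le_sum fun i _ => h2 i
      _ = 5 * s ^ 2 := by simp
  have h4 : 0 ≤ ‖x‖ := norm_nonneg x
  nlinarith

theorem isOpen_V {Q : Type} [TopologicalSpace Q] (a : Q → Q → Q → ℝ) : IsOpen {q | Z2 a q} := by
  rw [isOpen_iff_mem_nhds]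
  rintro q ⟨U, hU, h⟩
  filter_upwards [interior_mem_nhds.2 hU] with q' hq'
  exact ⟨U, mem_interior_iff_mem_nhds.1 hq', h⟩

theorem Z2_pull {X Q : Type} [TopologicalSpace X] [TopologicalSpace Q] {p : X → Q}
    (hp : Continuous p) {a : Q → Q → Q → ℝ} {x : X} (h : Z2 a (p x)) :
    Z2 (fun y z w => a (p y) (p z) (p w)) x := by
  obtain ⟨U, hU, h⟩ := h
  exact ⟨p ⁻¹' U, hp.continuousAt hU, fun y hy z hz w hw => h _ hy _ hz _ hw⟩

theorem C2_pull {X Q : Type} [TopologicalSpace X] [TopologicalSpace Q] {p : X → Q}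
    (hp : Continuous p) {a : Q → Q → Q → ℝ} {x : X} (h : C2 a (p x)) :
    C2 (fun y z w => a (p y) (p z) (p w)) x := by
  obtain ⟨U, hU, h⟩ := h
  exact ⟨p ⁻¹' U, hp.continuousAt hU, fun y hy z hz w hw v hv => h _ hy _ hz _ hw _ hv⟩

/-- **CS** from NEAR, B2 and SH -/
theorem t_CS (hN : S_NEAR) (hB : S_B2) (hS : S_SH) : S_CS := by
  classical
  intro Q _ _ Φ p hF a ha hal hv
  obtain ⟨-, -, -, hN4⟩ := hN Q Φ p hF
  have hM : IsCompact (p ⁻¹' {q | Z2 a q}ᶜ) := by
    refine hN4 _ (isOpen_V a).isClosed_compl ?_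
    intro q hq
    by_contra hc
    exact hq (hv q hc)
  obtain ⟨R, hR, hMR⟩ : ∃ R : ℝ, 0 < R ∧ ∀ x : E5, ¬ Z2 a (p x) → ∀ i, |x i| < R := by
    obtain ⟨C, hC⟩ := hM.isBounded.exists_norm_le
    refine ⟨|C| + 1, by positivity, fun x hx i => ?_⟩
    have h1 : ‖x‖ ≤ C := hC x hx
    have h2 : ‖x i‖ ≤ ‖x‖ := PiLp.norm_apply_le x i
    rw [Real.norm_eq_abs] at h2
    linarith [le_abs_self C]
  set A : E5 → E5 → E5 → ℝ := fun y z w => a (p y) (p z) (p w) with hA
  have hZ : ∀ x : E5, (∃ i, R < |x i|) → Z2 A x := by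
    rintro x ⟨i, hi⟩
    by_contra hc
    have : ¬ Z2 a (p x) := fun h => hc (Z2_pull hF.pcont h)
    exact absurd (hMR x this i) (not_lt.2 hi.le)
  obtain ⟨θ, hθ⟩ := hB A (fun x => C2_pull hF.pcont (ha (p x))) (3 * (R + 3))
  have hθ' : ∀ x : E5, (∀ i, |x i| < R + 3) → D2 θ A x := fun x hx =>
    hθ x (norm_lt_of_box (by linarith) hx)
  obtain ⟨f, hf⟩ := hS R (R + 3) θ hR (by linarith) (by
    intro x h1 h2
    obtain ⟨U, hU, hu⟩ := hZ x h1
    obtain ⟨W, hW, hw⟩ := hθ' x h2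
    refine ⟨U ∩ W, inter_mem hU hW, fun y hy z hz w hw' => ?_⟩
    rw [← hw y hy.2 z hz.2 w hw'.2]
    exact hu y hy.1 z hz.1 w hw'.1)
  set F : E5 → ℝ := fun x => if ∃ i, R < |x i| then f x else 0 with hFdef
  set ω : E5 → E5 → ℝ := fun x y =>
    if (∀ i, |x i| < R + 2) ∧ (∀ i, |y i| < R + 2) then θ x y - (F y - F x) else 0 with hω
  -- `ω` vanishes near the points with a large coordinate
  have hZ1 : ∀ x : E5, ¬ (∀ i, |x i| < R + 2) → Z1 ω x := by
    intro x hx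
    push Not at hx
    obtain ⟨i, hi⟩ := hx
    by_cases hx3 : ∀ j, |x j| < R + 3
    · obtain ⟨U, hU, hu⟩ := hf x ⟨i, by linarith⟩ hx3
      have hn : {y : E5 | R < |y i|} ∈ 𝓝 x :=
        (isOpen_lt continuous_const (cont_coord i).abs).mem_nhds (by
          show R < |x i|
          linarith)
      refine ⟨U ∩ {y : E5 | R < |y i|}, inter_mem hU hn, fun y hy z hz => ?_⟩
      have hy' : F y = f y := if_pos ⟨i, hy.2⟩
      have hz' : F z = f z := if_pos ⟨i, hz.2⟩
      by_cases hc : (∀ i, |y i| < R + 2) ∧ (∀ i, |z i| < R + 2)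
      · have : ω y z = θ y z - (F z - F y) := if_pos hc
        rw [this, hy', hz', hu y hy.1 z hz.1]
        ring
      · exact if_neg hc
    · push Not at hx3
      obtain ⟨j, hj⟩ := hx3
      have hn : {y : E5 | R + 2 < |y j|} ∈ 𝓝 x :=
        (isOpen_lt continuous_const (cont_coord j).abs).mem_nhds (by
          show R + 2 < |x j|
          linarith)
      refine ⟨_, hn, fun y hy z hz => ?_⟩
      refine if_neg fun hc => ?_
      have h1 : |y j| < R + 2 := hc.1 j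
      have h2 : R + 2 < |y j| := hy
      linarith
  refine ⟨ω, ⟨ha, hal, hv, ?_, ?_⟩⟩
  · intro x
    by_cases hx : ∀ i, |x i| < R + 2
    · obtain ⟨U, hU, hu⟩ := hθ' x fun i => by linarith [hx i]
      have hn : {y : E5 | ∀ i, |y i| < R + 2} ∈ 𝓝 x := by
        have : IsOpen {y : E5 | ∀ i, |y i| < R + 2} := by
          rw [Set.ofPred_forall]
          exact isOpen_iInter_of_finite fun i => isOpen_lt (cont_coord i).abs continuous_const
        exact this.mem_nhds hx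
      refine ⟨U ∩ {y : E5 | ∀ i, |y i| < R + 2}, inter_mem hU hn, fun y hy z hz w hw => ?_⟩
      have e1 : ω z w = θ z w - (F w - F z) := if_pos ⟨hz.2, hw.2⟩
      have e2 : ω y w = θ y w - (F w - F y) := if_pos ⟨hy.2, hw.2⟩
      have e3 : ω y z = θ y z - (F z - F y) := if_pos ⟨hy.2, hz.2⟩
      have h1 := hu y hy.1 z hz.1 w hw.1
      show A y z w = dd ω y z w
      rw [h1]
      simp only [dd, e1, e2, e3]
      ring
    · obtain ⟨U, hU, hu⟩ := hZ1 x hx
      have hx' : ∃ i, R < |x i| := by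
        push Not at hx
        obtain ⟨i, hi⟩ := hx
        exact ⟨i, by linarith⟩
      obtain ⟨W, hW, hw⟩ := hZ x hx'
      refine ⟨U ∩ W, inter_mem hU hW, fun y hy z hz w hw' => ?_⟩
      show A y z w = dd ω y z w
      rw [hw y hy.2 z hz.2 w hw'.2]
      simp only [dd, hu z hz.1 w hw'.1, hu y hy.1 w hw'.1, hu y hy.1 z hz.1]
      ring
  · refine ⟨{x : E5 | ∀ i, |x i| ≤ R + 2}, ?_, fun x hx => hZ1 x fun h => hx fun i => (h i).le⟩
    refine Metric.isCompact_of_isClosed_isBounded ?_ ?_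
    · rw [Set.ofPred_forall]
      exact isClosed_iInter fun i => isClosed_le (cont_coord i).abs continuous_const
    · refine (Metric.isBounded_ball (x := (0 : E5)) (r := 3 * (R + 3))).subset fun x hx => ?_
      rw [mem_ball_zero_iff]
      exact norm_lt_of_box (by linarith) fun i => lt_of_le_of_lt (hx i) (by linarith)

end Run7.h669.FL
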